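import Pool.Agent.Helper672.Blum.Exists

/-!
# Uniform non-helping oracles

For every relative Blum measure there is a recursive `g` such that every recursive set `A` has
arbitrarily complex recursive oracles `B` which, simultaneously for all recursive `t`, preserve
almost everywhere lower bounds `t` of the complexity of `A` up to `g`.

The set `B` is built by a finite injury argument with the true stages of the construction computable
(every block of new bits of `B` is decided after every relevant requirement has acted on it).
The requirements are `C_e`: if `Φ_e(z) ≤ s(z)` for infinitely many `z` then `φ_e` is not the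
characteristic function of `B`; and `K_i`: if the part of `B` which is decided at a stage can be
extended to an oracle with which `φ_i` computes a wrong value of `A` within a time smaller than the
stage, do so. If `φ_i^B = c_A` then from some stage on no such extension exists, so that
`φ_i^B(x)` can be computed without oracle, by searching through all extensions of the part of `B`
which is decided at stage `max x y`, for `y = 0, 1, 2, …`; the search stops at some `y` which is at
most `Φ_i^B(x)`. Its running time is bounded by a recursive function of `x` and `Φ_i^B(x)`.
-/

namespace Pool.Agent.Results.MP_0db899_lc.UniformNonHelping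

open Pool.Agent.Helper672.Blum

/-- Relative Blum measures exist. -/
theorem measures_exist : Nonempty RelBlum := relBlum_nonempty

theorem result (M : RelBlum) :
    ∃ g : ℕ → ℕ → ℕ, Computable₂ g ∧
      ∀ A : ℕ → Bool, Computable A → ∀ s : ℕ → ℕ, Computable s →
        ∃ B : ℕ → Bool, Computable B ∧ M.CompAE noOracle B s ∧
          ∀ t : ℕ → ℕ, Computable t →
            M.CompAE noOracle A (fun x => g x (t x)) → M.CompAE B A t := by
  obtain ⟨g, hg, hmono, h⟩ := main M
  refine ⟨g, hg, fun A hA s hs => ?_⟩
  obtain ⟨B, hB, hBs, hAB⟩ := h A hA s hs
  refine ⟨B, hB, hBs, fun t _ hAt i hi => ?_⟩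
  obtain ⟨j, hj, x₀, hx₀⟩ := hAB i hi
  obtain ⟨x₁, hx₁⟩ := hAt j hj
  refine ⟨max x₀ x₁, fun x hx y hy => ?_⟩
  obtain ⟨y', hy', hle⟩ := hx₀ x ((le_max_left _ _).trans hx) y hy
  have h1 : g x (t x) < y' := hx₁ x ((le_max_right _ _).trans hx) y' hy'
  by_contra hlt
  have h2 := hmono x y (t x) (not_lt.1 hlt)
  omega

end Pool.Agent.Results.MP_0db899_lc.UniformNonHelping
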